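import Mathlib

set_option autoImplicit false

namespace Pool.Agent.Results.MP_f88521_co.Paley

open Finset SimpleGraph

/-- Every 2-colouring of the edges of `K_N` has a monochromatic tree on `n` vertices of diameter
at most three. -/
def Arrows (N n : ℕ) : Prop :=
  ∀ c : Sym2 (Fin N) → Bool, ∃ T : SimpleGraph (Fin n), T.IsTree ∧ T.ediam ≤ 3 ∧
    ∃ (b : Bool) (f : Fin n ↪ Fin N), ∀ u v, T.Adj u v → c s(f u, f v) = b

/-- The Ramsey number `R(τ_n(3), 2)`. -/
noncomputable def R (n : ℕ) : ℕ := sInf {N | Arrows N n}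

theorem no4 {V : Type} (T : SimpleGraph V) (hT : T.IsTree) (hd : T.ediam ≤ 3) (a b c d e : V)
    (h1 : T.Adj a b) (h2 : T.Adj b c) (h3 : T.Adj c d) (h4 : T.Adj d e) (n1 : a ≠ c) (n2 : b ≠ d)
    (n3 : c ≠ e) : False := by
  let p : T.Walk a e := .cons h1 (.cons h2 (.cons h3 (.cons h4 .nil)))
  have hp : p.IsPath := by
    rw [hT.isAcyclic.isPath_iff_isChain]
    simp [p, n1, n2, n3, h1.ne, h2.ne, h3.ne]
  obtain ⟨q, hq, hl⟩ := hT.connected.exists_path_of_dist a e
  obtain ⟨r, hr⟩ := hT.connected.exists_walk_length_eq_edist a e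
  have h5 : q = p := (hT.existsUnique_path a e).unique hq hp
  have h6 := dist_le r
  have h7 : (r.length : ℕ∞) ≤ 3 := hr ▸ (edist_le_ediam.trans hd)
  have h8 : r.length ≤ 3 := by exact_mod_cast h7
  rw [← hl, h5] at h6
  simp [p] at h6
  omega

theorem dom {V : Type} [Nontrivial V] (T : SimpleGraph V) (hT : T.IsTree) (hd : T.ediam ≤ 3) :
    ∃ u v, T.Adj u v ∧ ∀ w, T.Adj u w ∨ T.Adj v w := by
  have walk : ∀ a b : V, a = b ∨ T.Adj a b ∨ (∃ c, T.Adj a c ∧ T.Adj c b ∧ a ≠ b) ∨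
      ∃ c d, T.Adj a c ∧ T.Adj c d ∧ T.Adj d b ∧ a ≠ d ∧ c ≠ b := by
    intro a b
    obtain ⟨q, hq, hl⟩ := hT.connected.exists_path_of_dist a b
    obtain ⟨r, hr⟩ := hT.connected.exists_walk_length_eq_edist a b
    have h6 := dist_le r
    have h7 : (r.length : ℕ∞) ≤ 3 := hr ▸ (edist_le_ediam.trans hd)
    have h8 : r.length ≤ 3 := by exact_mod_cast h7
    have h9 : q.length ≤ 3 := by omega
    clear hl
    match q, hq, h9 with
    | .nil, _, _ => exact Or.inl rfl
    | .cons h .nil, _, _ => exact Or.inr (Or.inl h)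
    | .cons h (.cons h' .nil), hq, _ =>
      refine Or.inr (Or.inr (Or.inl ⟨_, h, h', ?_⟩))
      simp [Walk.isPath_def] at hq
      tauto
    | .cons h (.cons h' (.cons h'' .nil)), hq, _ =>
      refine Or.inr (Or.inr (Or.inr ⟨_, _, h, h', h'', ?_, ?_⟩)) <;>
      · simp [Walk.isPath_def] at hq
        tauto
    | .cons _ (.cons _ (.cons _ (.cons _ _))), _, h9 => simp at h9; omega
  have n4 := no4 T hT hd
  by_cases hA : ∃ a c d b, T.Adj a c ∧ T.Adj c d ∧ T.Adj d b ∧ a ≠ d ∧ c ≠ b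
  · obtain ⟨a, c, d, b, h1, h2, h3, h4, h5⟩ := hA
    refine ⟨c, d, h2, fun w => ?_⟩
    rcases walk c w with rfl | h | ⟨x, k1, k2, k3⟩ | ⟨x, y, k1, k2, k3, k4, k5⟩
    · exact Or.inr h2.symm
    · exact Or.inl h
    · by_cases hx : x = d
      · exact Or.inr (hx ▸ k2)
      · exact (n4 b d c x w h3.symm h2.symm k1 k2 h5.symm (Ne.symm hx) k3).elim
    · by_cases hx : x = d
      · subst hx
        exact (n4 a c x y w h1 h2 k2 k3 h4 k4 k5).elim
      · exact (n4 d c x y w h2.symm k1 k2 k3 (Ne.symm hx) k4 k5).elim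
  · by_cases hB : ∃ a c b, T.Adj a c ∧ T.Adj c b ∧ a ≠ b
    · obtain ⟨a, c, b, h1, h2, h3⟩ := hB
      refine ⟨c, a, h1.symm, fun w => ?_⟩
      rcases walk c w with rfl | h | ⟨x, k1, k2, k3⟩ | ⟨x, y, k1, k2, k3, k4, k5⟩
      · exact Or.inr h1
      · exact Or.inl h
      · by_cases hx : x = a
        · exact Or.inr (hx ▸ k2)
        · exact (hA ⟨a, c, x, w, h1, k1, k2, Ne.symm hx, k3⟩).elim
      · exact (hA ⟨c, x, y, w, k1, k2, k3, k4, k5⟩).elim
    · have w2 : ∀ a b, a = b ∨ T.Adj a b := by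
        intro a b
        rcases walk a b with h | h | ⟨x, k1, k2, k3⟩ | ⟨x, y, k1, k2, k3, k4, k5⟩
        · exact Or.inl h
        · exact Or.inr h
        · exact (hB ⟨a, x, b, k1, k2, k3⟩).elim
        · exact (hA ⟨a, x, y, b, k1, k2, k3, k4, k5⟩).elim
      obtain ⟨a, b, hab⟩ := exists_pair_ne V
      have h := (w2 a b).resolve_left hab
      refine ⟨a, b, h, fun w => ?_⟩
      rcases w2 a w with rfl | h'
      · exact Or.inr h.symm
      · exact Or.inl h'

def col (x y : Fin 9) : Bool := decide (x.1 / 3 = y.1 / 3 ∨ x.1 % 3 = y.1 % 3)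

theorem col_symm : ∀ x y, col x y = col y x := by decide

theorem col_card : ∀ (b : Bool) (x y : Fin 9), col x y = b →
    (univ.filter (fun z => col x z = b ∨ col y z = b)).card ≤ 7 := by decide +kernel

theorem lower (t n N : ℕ) (ht : 1 ≤ t) (hn : 7 * t + 1 ≤ n) (hN : N ≤ 9 * t) : ¬ Arrows N n := by
  intro h
  let cl : Fin N → Fin 9 := fun x => ⟨x.1 % 9, Nat.mod_lt _ (by norm_num)⟩
  obtain ⟨T, hT, hd, b, f, hf⟩ :=
    h (Sym2.lift ⟨fun x y => col (cl x) (cl y), fun x y => col_symm _ _⟩)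
  have : Nontrivial (Fin n) := Fin.nontrivial_iff_two_le.2 (by omega)
  obtain ⟨u, v, huv, hw⟩ := dom T hT hd
  have h1 := col_card b _ _ (hf u v huv)
  have h2 : (univ : Finset (Fin n)).card ≤ ((univ.filter
      (fun z => col (cl (f u)) z = b ∨ col (cl (f v)) z = b)) ×ˢ range t).card := by
    refine card_le_card_of_injOn (fun w => (cl (f w), (f w).1 / 9)) ?_ ?_
    · intro w _
      have := (f w).2
      simp only [coe_product, coe_filter, mem_univ, true_and, coe_range, Set.mem_prod,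
        Set.mem_ofPred_eq, Set.mem_Iio]
      exact ⟨(hw w).imp (hf u w) (hf v w), by omega⟩
    · intro a _ b _ hab
      simp only [Prod.mk.injEq, cl, Fin.mk.injEq] at hab
      exact f.injective (Fin.ext (by omega))
  rw [card_product, card_range, card_univ, Fintype.card_fin] at h2
  nlinarith

theorem ne_of (t n N : ℕ) (ht : 1 ≤ t) (hn : 7 * t + 1 ≤ n) (hN : N ≤ 9 * t) (h0 : 0 < N) :
    R n ≠ N := by
  intro h
  have hne : {M | Arrows M n}.Nonempty := by
    by_contra hc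
    rw [Set.not_nonempty_iff_eq_empty] at hc
    rw [R, hc, Nat.sInf_empty] at h
    omega
  have := Nat.sInf_mem hne
  rw [← R, h] at this
  exact lower t n N ht hn hN this

theorem result :
    (∀ t n N : ℕ, 1 ≤ t → 7 * t + 1 ≤ n → N ≤ 9 * t → ¬ Arrows N n) ∧
    R (4 * 2 - 1 + 1) ≠ 5 * 2 - 1 ∧
    ∀ k r : ℕ, 62 ≤ k → 1 ≤ r → r ≤ 4 → R (4 * k - r + 1) ≠ 5 * k - r :=
  ⟨lower, ne_of 1 _ _ (by norm_num) (by norm_num) (by norm_num) (by norm_num),
    fun k r _ _ _ => ne_of ((4 * k - r) / 7) _ _ (by omega) (by omega) (by omega) (by omega)⟩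

end Pool.Agent.Results.MP_f88521_co.Paley
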